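import Mathlib

namespace Pool.Agent.Results.MP_e99302_nt.Holds

/-- The Collatz map. -/
def C (n : ℕ) : ℕ := if n % 2 = 0 then n / 2 else 3 * n + 1

def sv (a v : ℕ) : ℕ × ℕ := if v % 2 = 0 then (a, v / 2) else (a + 1, (3 * v + 1) / 2)

def step (e : ℕ) (f : ℕ × ℕ) : ℕ × ℕ := sv f.1 (3 ^ f.1 * e + f.2)

def steps : List ℕ → ℕ × ℕ → ℕ × ℕ
  | [], f => f
  | e :: w, f => steps w (step e f)

def sub : List ℕ → ℕ → ℕ
  | [], m => m
  | e :: w, m => 2 * sub w m + e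

def ev (f : ℕ × ℕ) (m : ℕ) : ℕ := 3 ^ f.1 * m + f.2

lemma steps_append (w w' : List ℕ) (f : ℕ × ℕ) :
    steps (w ++ w') f = steps w' (steps w f) := by
  induction w generalizing f with
  | nil => rfl
  | cons e w ih => exact ih _

lemma step_sem (e : ℕ) (f : ℕ × ℕ) (m : ℕ) :
    ∃ d, (step e f).1 = f.1 + d ∧ C^[1 + d] (ev f (2 * m + e)) = ev (step e f) m := by
  obtain ⟨a, b⟩ := f
  have h1 : ev (a, b) (2 * m + e) = 2 * (3 ^ a * m) + (3 ^ a * e + b) := by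
    simp only [ev]; ring
  rw [h1]
  simp only [step, sv, ev]
  generalize 3 ^ a * e + b = v
  by_cases hv : v % 2 = 0
  · refine ⟨0, by simp [hv], ?_⟩
    simp only [hv, if_true, Nat.add_zero, Function.iterate_one, C]
    generalize 3 ^ a * m = y
    have : (2 * y + v) % 2 = 0 := by omega
    rw [if_pos this]; omega
  · refine ⟨1, by simp [hv], ?_⟩
    simp only [hv, if_false]
    have h3 : 3 ^ (a + 1) * m = 3 * (3 ^ a * m) := by ring
    rw [h3]
    generalize 3 ^ a * m = y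
    have h2 : ¬ (2 * y + v) % 2 = 0 := by omega
    have h4 : (3 * (2 * y + v) + 1) % 2 = 0 := by omega
    show C (C (2 * y + v)) = _
    have h5 : C (2 * y + v) = 3 * (2 * y + v) + 1 := by unfold C; rw [if_neg h2]
    rw [h5]; unfold C; rw [if_pos h4]; omega

lemma steps_sem (w : List ℕ) (f : ℕ × ℕ) (m : ℕ) :
    ∃ d, (steps w f).1 = f.1 + d ∧
      C^[w.length + d] (ev f (sub w m)) = ev (steps w f) m := by
  induction w generalizing f with
  | nil => exact ⟨0, rfl, rfl⟩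
  | cons e w ih =>
    obtain ⟨d1, h1, h2⟩ := step_sem e f (sub w m)
    obtain ⟨d2, h3, h4⟩ := ih (step e f)
    refine ⟨d1 + d2, ?_, ?_⟩
    · show (steps w (step e f)).1 = _
      omega
    · have : (e :: w).length + (d1 + d2) = (w.length + d2) + (1 + d1) := by
        simp only [List.length_cons]; omega
      rw [this, Function.iterate_add_apply]
      show C^[w.length + d2] (C^[1 + d1] (ev f (2 * sub w m + e))) = ev (steps w (step e f)) m
      rw [h2, h4]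

def M (f g : ℕ × ℕ) : Prop := ∃ w, steps w f = steps w g

lemma M_symm {f g : ℕ × ℕ} (h : M f g) : M g f := by
  obtain ⟨w, h⟩ := h; exact ⟨w, h.symm⟩

def P (e : ℕ) (c : ℤ) : Prop :=
  ∀ a b b' : ℕ, (b : ℤ) - 3 ^ e * b' = c → M (a + e, b) (a, b')

lemma par (a b p : ℕ) (hp : p < 2) : ∃ e, (3 ^ a * e + b) % 2 = p := by
  have h : 3 ^ a % 2 = 1 := by rw [Nat.pow_mod]; simp
  by_cases hb : b % 2 = p
  · exact ⟨0, by simpa using hb⟩
  · exact ⟨1, by omega⟩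

lemma shift (e : ℕ) (c : ℤ) (p : ℕ) (hp : p < 2)
    (h : ∀ a v v' : ℕ, (v : ℤ) - 3 ^ e * v' = c → v' % 2 = p → M (sv (a + e) v) (sv a v')) :
    P e c := by
  intro a b b' hb
  obtain ⟨x, hx⟩ := par a b' p hp
  obtain ⟨w, hw⟩ := h a (3 ^ (a + e) * x + b) (3 ^ a * x + b') (by
    push_cast; rw [← hb]; ring) hx
  exact ⟨x :: w, hw⟩

lemma odd3 (e : ℕ) : ∃ s : ℤ, (3 : ℤ) ^ e = 2 * s + 1 := by
  have : Odd ((3 : ℤ) ^ e) := Odd.pow (by decide)
  exact this

lemma mvA (e : ℕ) (c : ℤ) (h : P e c) : P e (2 * c) := by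
  refine shift e _ 0 (by norm_num) fun a v v' hv hp => ?_
  obtain ⟨y, rfl⟩ : ∃ y, v' = 2 * y := ⟨v' / 2, by omega⟩
  have h1 : (v : ℤ) = 2 * (3 ^ e * y + c) := by push_cast at hv; linear_combination hv
  have h2 : v % 2 = 0 := by omega
  obtain ⟨x, rfl⟩ : ∃ x, v = 2 * x := ⟨v / 2, by omega⟩
  have e1 : sv (a + e) (2 * x) = (a + e, x) := by simp [sv]
  have e2 : sv a (2 * y) = (a, y) := by simp [sv]
  rw [e1, e2]
  apply h
  push_cast at h1; linarith

lemma svodd (a x : ℕ) : sv a (2 * x + 1) = (a + 1, 3 * x + 2) := by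
  have h : ¬ (2 * x + 1) % 2 = 0 := by omega
  unfold sv; rw [if_neg h]; congr 1; omega

lemma sveven (a x : ℕ) : sv a (2 * x) = (a, x) := by simp [sv]

lemma mvB (e : ℕ) (c : ℤ) (hc : 2 * c = 1 - 3 ^ e) (h : P e c) : P e 0 := by
  refine shift e _ 1 (by norm_num) fun a v v' hv hp => ?_
  obtain ⟨y, rfl⟩ : ∃ y, v' = 2 * y + 1 := ⟨v' / 2, by omega⟩
  have h1 : (v : ℤ) = 2 * (3 ^ e * y - c) + 1 := by
    push_cast at hv; linear_combination hv + hc
  obtain ⟨x, rfl⟩ : ∃ x, v = 2 * x + 1 := ⟨v / 2, by omega⟩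
  rw [svodd, svodd, show a + e + 1 = a + 1 + e by ring]
  apply h
  push_cast at h1 ⊢
  have : (2 : ℤ) * (3 * x + 2 - 3 ^ e * (3 * y + 2)) = 2 * c := by
    linear_combination 3 * h1 - 4 * hc
  linarith

lemma mvC (e : ℕ) (c : ℤ) (h : P (e + 1) (3 * c + 2)) : P e (2 * c + 1) := by
  refine shift e _ 0 (by norm_num) fun a v v' hv hp => ?_
  obtain ⟨y, rfl⟩ : ∃ y, v' = 2 * y := ⟨v' / 2, by omega⟩
  have h1 : (v : ℤ) = 2 * (3 ^ e * y + c) + 1 := by push_cast at hv; linear_combination hv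
  obtain ⟨x, rfl⟩ : ∃ x, v = 2 * x + 1 := ⟨v / 2, by omega⟩
  rw [svodd, sveven, show a + e + 1 = a + (e + 1) by ring]
  apply h
  push_cast at h1 ⊢
  have : (2 : ℤ) * (3 * x + 2 - 3 ^ (e + 1) * y) = 2 * (3 * c + 2) := by
    linear_combination 3 * h1
  linarith

lemma mvD (e : ℕ) (c c' : ℤ) (hc : 2 * c' = c - 3 ^ e) (h : P e c') : P (e + 1) c := by
  refine shift (e + 1) _ 1 (by norm_num) fun a v v' hv hp => ?_
  obtain ⟨y, rfl⟩ : ∃ y, v' = 2 * y + 1 := ⟨v' / 2, by omega⟩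
  have h1 : (v : ℤ) = 2 * (3 ^ e * (3 * y + 2) + c') := by
    push_cast at hv; linear_combination hv - hc
  obtain ⟨x, rfl⟩ : ∃ x, v = 2 * x := ⟨v / 2, by omega⟩
  rw [svodd, sveven, show a + (e + 1) = a + 1 + e by ring]
  apply h
  push_cast at h1 ⊢
  linarith

lemma mvS (c : ℤ) (h : P 0 c) : P 0 (-c) := by
  intro a b b' hb
  apply M_symm
  apply h a b' b
  linear_combination -hb

lemma P00 : P 0 0 := by
  intro a b b' hb
  have : b = b' := by
    have : (b : ℤ) = b' := by linear_combination hb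
    exact_mod_cast this
  subst this
  exact ⟨[], rfl⟩

lemma P01 : P 0 1 := by
  have h1 : P 1 1 := mvD 0 1 0 (by norm_num) P00
  have h2 : P 1 (2 * 1) := mvA 1 1 h1
  exact mvC 0 0 h2

lemma P0 (c : ℤ) : P 0 c := by
  suffices H : ∀ N : ℕ, ∀ c : ℤ, c.natAbs < N → P 0 c from H _ c (Nat.lt_succ_self _)
  intro N
  induction N with
  | zero => intro c h; omega
  | succ N ih =>
    have key : ∀ c : ℤ, c.natAbs < N + 1 → c % 4 = 3 → P 0 c := by
      intro c hc h4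
      by_cases h1 : c = -1
      · rw [h1]; exact mvS 1 P01
      obtain ⟨k, rfl⟩ : ∃ k, c = 2 * (2 * k + 1) + 1 := ⟨c / 4, by omega⟩
      apply mvC
      exact mvD 0 _ (3 * k + 2) (by ring) (ih _ (by omega))
    intro c hc
    by_cases h0 : c = 0
    · rw [h0]; exact P00
    by_cases h2 : c % 2 = 0
    · obtain ⟨k, rfl⟩ : ∃ k, c = 2 * k := ⟨c / 2, by omega⟩
      exact mvA 0 k (ih _ (by omega))
    by_cases h4 : c % 4 = 3
    · exact key c hc h4
    · have := mvS _ (key (-c) (by omega) (by omega))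
      simpa using this

lemma Pall (e : ℕ) : ∀ c, P e c := by
  induction e with
  | zero => exact P0
  | succ e ih =>
    have H : ∀ N : ℕ, ∀ c : ℤ, c.natAbs < N → c ≠ 0 → P (e + 1) c := by
      intro N
      induction N with
      | zero => intro c h; omega
      | succ N ihN =>
        intro c hc h0
        by_cases h2 : c % 2 = 0
        · obtain ⟨k, rfl⟩ : ∃ k, c = 2 * k := ⟨c / 2, by omega⟩
          exact mvA _ k (ihN _ (by omega) (by omega))
        · obtain ⟨s, hs⟩ := odd3 e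
          exact mvD e c (c / 2 - s) (by omega) (ih _)
    intro c
    by_cases h0 : c = 0
    · obtain ⟨s, hs⟩ := odd3 (e + 1)
      have h3 : (1 : ℤ) < 3 ^ (e + 1) := one_lt_pow₀ (by norm_num) (by omega)
      rw [h0]
      exact mvB (e + 1) (-s) (by omega) (H _ _ (Nat.lt_succ_self _) (by omega))
    · exact H _ c (Nat.lt_succ_self _) h0

lemma Mall (f g : ℕ × ℕ) : M f g := by
  obtain ⟨a, b⟩ := f
  obtain ⟨a', b'⟩ := g
  rcases le_total a a' with h | h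
  · obtain ⟨e, rfl⟩ := Nat.exists_eq_add_of_le h
    exact M_symm (Pall e _ a b' b rfl)
  · obtain ⟨e, rfl⟩ := Nat.exists_eq_add_of_le h
    exact Pall e _ a' b b' rfl

lemma mergeL (L : ℕ) : ∃ w, ∀ j < L, steps w (0, j) = steps w (0, 0) := by
  induction L with
  | zero => exact ⟨[], fun j h => by omega⟩
  | succ L ih =>
    obtain ⟨w, hw⟩ := ih
    obtain ⟨w', hw'⟩ := Mall (steps w (0, L)) (steps w (0, 0))
    refine ⟨w ++ w', fun j hj => ?_⟩
    rw [steps_append, steps_append]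
    rcases Nat.lt_succ_iff_lt_or_eq.mp hj with h | h
    · rw [hw j h]
    · rw [h, hw']

lemma lte (a : ℕ) : ∃ u : ℤ, (2 : ℤ) ^ (2 * 3 ^ a) = 1 + 3 ^ (a + 1) * (3 * u + 1) := by
  induction a with
  | zero => exact ⟨0, by norm_num⟩
  | succ a ih =>
    obtain ⟨u, hu⟩ := ih
    refine ⟨u + 3 ^ a * (3 * u + 1) ^ 2 + 3 ^ (2 * a) * (3 * u + 1) ^ 3, ?_⟩
    rw [show 2 * 3 ^ (a + 1) = 2 * 3 ^ a * 3 by ring, pow_mul, hu]; ring

lemma pw (a : ℕ) (b : ℤ) (hb : b % 3 = 2) (N : ℕ) :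
    ∃ t, N ≤ t ∧ ∃ q : ℤ, (2 : ℤ) ^ t = b + 3 ^ (a + 1) * q := by
  induction a with
  | zero =>
    refine ⟨2 * N + 1, by omega, ?_⟩
    have h : (2 : ℤ) ^ (2 * N + 1) % 3 = 2 := by
      rw [pow_succ, pow_mul, Int.mul_emod]
      have : ((2 : ℤ) ^ 2) ^ N % 3 = 1 := by
        have h : ((2 : ℤ) ^ 2) ≡ 1 [ZMOD 3] := by decide
        simpa [Int.ModEq] using h.pow N
      rw [this]; norm_num
    exact ⟨((2 : ℤ) ^ (2 * N + 1) - b) / 3, by omega⟩
  | succ a ih =>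
    obtain ⟨t, ht, q, hq⟩ := ih
    obtain ⟨u, hu⟩ := lte a
    obtain ⟨s, rfl⟩ : ∃ s, b = 3 * s + 2 := ⟨b / 3, by omega⟩
    have h3 : q % 3 = 0 ∨ q % 3 = 1 ∨ q % 3 = 2 := by omega
    rcases h3 with h | h | h
    · obtain ⟨r, rfl⟩ : ∃ r, q = 3 * r := ⟨q / 3, by omega⟩
      exact ⟨t, ht, r, by rw [hq]; ring⟩
    · obtain ⟨r, rfl⟩ : ∃ r, q = 3 * r + 1 := ⟨q / 3, by omega⟩
      refine ⟨t + 2 * 3 ^ a, by omega,
        r + 1 + s + 2 * u + 3 * s * u + 3 ^ a * (3 * r + 1) * (3 * u + 1), ?_⟩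
      rw [pow_add, hq, hu]; ring
    · obtain ⟨r, rfl⟩ : ∃ r, q = 3 * r + 2 := ⟨q / 3, by omega⟩
      refine ⟨t + 2 * 3 ^ a + 2 * 3 ^ a, by omega,
        r + 2 + 2 * s + 4 * u + 6 * s * u + 2 * 3 ^ a * (3 * r + 2) * (3 * u + 1)
          + 3 ^ a * (3 * u + 1) ^ 2 * ((3 * s + 2) + 3 ^ (a + 1) * (3 * r + 2)), ?_⟩
      rw [pow_add, pow_add, hq, hu]; ring

lemma C_pow (t : ℕ) : C^[t] (2 ^ t) = 1 := by
  induction t with
  | zero => rfl
  | succ t ih =>
    rw [Function.iterate_succ_apply]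
    have : C (2 ^ (t + 1)) = 2 ^ t := by
      unfold C; rw [pow_succ, if_pos (by omega)]; omega
    rw [this, ih]

lemma C_one (k : ℕ) : C^[k] 1 = 1 ∨ C^[k] 1 = 4 ∨ C^[k] 1 = 2 := by
  induction k with
  | zero => left; rfl
  | succ k ih =>
    rw [Function.iterate_succ_apply']
    rcases ih with h | h | h <;> rw [h] <;> decide

theorem result (L : ℕ) : ∃ n : ℕ, 1 ≤ n ∧ ∃ h : ℕ, ∀ j < L,
    IsLeast {k : ℕ | C^[k] (n + j) = 1} h := by
  obtain ⟨w0, hw0⟩ := mergeL (L + 1)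
  obtain ⟨x, hx⟩ := par (steps w0 (0, 0)).1 (steps w0 (0, 0)).2 1 (by norm_num)
  obtain ⟨y, hy⟩ : ∃ y, 3 ^ (steps w0 (0, 0)).1 * x + (steps w0 (0, 0)).2 = 2 * y + 1 :=
    ⟨(3 ^ (steps w0 (0, 0)).1 * x + (steps w0 (0, 0)).2) / 2, by omega⟩
  set a := (steps w0 (0, 0)).1 with ha
  have hw : ∀ j < L + 1, steps (w0 ++ [x]) (0, j) = (a + 1, 3 * y + 2) := by
    intro j hj
    rw [steps_append, hw0 j hj]
    show sv _ _ = _
    rw [hy, svodd]
  obtain ⟨t, ht, q, hq⟩ := pw a (3 * y + 2) (by omega) (3 * y + 3)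
  have hlt : 3 * y + 3 < 2 ^ t := lt_of_le_of_lt ht Nat.lt_two_pow_self
  have h8 : 8 ≤ 2 ^ t := Nat.pow_le_pow_right (n := 2) (i := 3) (by norm_num) (by omega)
  have hq0 : 0 ≤ q := by
    by_contra hneg
    have h1 : (0 : ℤ) < 3 ^ (a + 1) := by positivity
    have h2 : ((3 * y + 3 : ℕ) : ℤ) < ((2 ^ t : ℕ) : ℤ) := by exact_mod_cast hlt
    push_cast at h2
    nlinarith
  obtain ⟨m, rfl⟩ := Int.eq_ofNat_of_zero_le hq0
  have hm : ev (a + 1, 3 * y + 2) m = 2 ^ t := by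
    simp only [ev]
    have : ((3 ^ (a + 1) * m + (3 * y + 2) : ℕ) : ℤ) = ((2 ^ t : ℕ) : ℤ) := by
      push_cast; linarith
    exact_mod_cast this
  set K := (w0 ++ [x]).length + (a + 1) with hK
  have hall : ∀ j < L + 1, C^[K] (sub (w0 ++ [x]) m + j) = 2 ^ t := by
    intro j hj
    obtain ⟨d, hd, h⟩ := steps_sem (w0 ++ [x]) (0, j) m
    rw [hw j hj] at hd h
    have : d = a + 1 := by simpa using hd.symm
    rw [this, hm] at h
    have h' : ev (0, j) (sub (w0 ++ [x]) m) = sub (w0 ++ [x]) m + j := by simp [ev]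
    rw [h'] at h
    exact h
  have hex : ∃ k, C^[k] (2 ^ t) = 1 := ⟨t, C_pow t⟩
  refine ⟨sub (w0 ++ [x]) m + 1, by omega, Nat.find hex + K, fun j hj => ?_⟩
  have hj' := hall (j + 1) (by omega)
  rw [show sub (w0 ++ [x]) m + 1 + j = sub (w0 ++ [x]) m + (j + 1) by ring]
  constructor
  · show C^[_] _ = 1
    rw [Function.iterate_add_apply, hj']
    exact Nat.find_spec hex
  · intro k hk
    have hk' : C^[k] (sub (w0 ++ [x]) m + (j + 1)) = 1 := hk
    rcases le_total k K with h | h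
    · obtain ⟨r, hr⟩ := Nat.exists_eq_add_of_le h
      rw [hr, add_comm k r, Function.iterate_add_apply, hk'] at hj'
      have := C_one r
      omega
    · obtain ⟨r, hr⟩ := Nat.exists_eq_add_of_le h
      rw [hr, add_comm K r, Function.iterate_add_apply, hj'] at hk'
      have := Nat.find_min' hex hk'
      omega

end Pool.Agent.Results.MP_e99302_nt.Holds
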